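import Mathlib
import Pool.Agent.V1110.Ple

set_option autoImplicit false

/-!
# The maximum `p`-length of `p`-soluble subgroups of `GL(n, q)` is not asymptotic to `log_2 n`

Definitions (file `Pool/Agent/V1110/PlDefs.lean`):

* `PSoluble p G`: `G` has a subnormal series whose factors have order `p` or order prime to `p`
  (for finite `G` this says that all composition factors are of this kind);
* `IsSeries p G k N`: `1 = N 0 ≤ ... ≤ N k = G` is a series of normal subgroups of `G` whose factors
  are `p`-groups or `p'`-groups; `pFactors`: the number of its nontrivial `p`-factors;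
* `pLength p G`: the least possible value of `pFactors`;
* `maxLength p F n`: the maximum of `pLength p H` over the `p`-soluble subgroups `H` of `GL(n, F)`,
  that is the number `m_n(q)` of the problem, if `F` is the field with `q` elements.

Proof.  The library `Pool.Agent.TH69` contains a proof of Theorem B of Hall and Higman for modules
and of its consequence for finite soluble groups.  Here the consequence is proved for all finite
`p`-soluble groups `G` (files `Pla`, `Plb`): if `x ^ (p ^ a) = 1` for all `p`-elements, the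
`p ^ (a - 1)`-th powers of the `p`-elements lie in `O_{p',p}(G)`, unless `p = 2` or `p` is a Fermat
prime.  By induction the `p`-length of `G` is at most `a` (file `Plc`).  For `G ≤ GL(n, q)` one can
take the least `a` with `n ≤ p ^ a`, since the `p`-elements are unipotent.  So
`m_n(q) ≤ ⌈log_p n⌉` and `limsup m_n(q) / log_2 n ≤ log 2 / log p < 1`.
-/

namespace Pool.Agent.Results.MP_d3ab46_al.NotLogTwo

open Filter Topology Pool.Agent.V1110.Pl

theorem result :
    (∀ p : ℕ, p.Prime → (∀ k : ℕ, p ≠ 2 ^ k + 1) →
      ∀ (F : Type) [Field F] [Finite F] [CharP F p],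
        (∀ n : ℕ, 1 ≤ n → maxLength p F n ≤ Nat.clog p n) ∧
        Real.log 2 / Real.log p < 1 ∧
        (∀ c : ℝ, Real.log 2 / Real.log p < c →
          ∀ᶠ n : ℕ in atTop, (maxLength p F n : ℝ) / Real.logb 2 n < c) ∧
        ¬ Tendsto (fun n : ℕ => (maxLength p F n : ℝ) / Real.logb 2 n) atTop (𝓝 1)) ∧
    ¬ ∀ p : ℕ, p.Prime → ∀ (F : Type) [Field F] [Finite F] [CharP F p],
        Tendsto (fun n : ℕ => (maxLength p F n : ℝ) / Real.logb 2 n) atTop (𝓝 1) := by
  have key : ∀ p : ℕ, p.Prime → (∀ k : ℕ, p ≠ 2 ^ k + 1) →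
      ∀ (F : Type) [Field F] [Finite F] [CharP F p],
        ¬ Tendsto (fun n : ℕ => (maxLength p F n : ℝ) / Real.logb 2 n) atTop (𝓝 1) := by
    intro p hp hF F _ _ _ h
    obtain ⟨c, hc1, hc2⟩ := exists_between (log_lt hp hF)
    obtain ⟨n, h1, h2⟩ := ((ratio_lt hp hF F hc1).and (h.eventually (lt_mem_nhds hc2))).exists
    exact lt_asymm h1 h2
  refine ⟨fun p hp hF F _ _ _ => ⟨fun n hn => maxLength_le hp hF F hn, log_lt hp hF,
    fun c hc => ratio_lt hp hF F hc, key p hp hF F⟩, fun h => ?_⟩
  have : Fact (Nat.Prime 7) := ⟨by norm_num⟩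
  refine key 7 (by norm_num) ?_ (ZMod 7) (h 7 (by norm_num) (ZMod 7))
  intro k hk
  have h6 : 2 ^ k = 6 := by omega
  match k, h6 with
  | 0, h6 => norm_num at h6
  | 1, h6 => norm_num at h6
  | 2, h6 => norm_num at h6
  | k + 3, h6 =>
    have : 2 ^ (k + 3) = 2 ^ k * 8 := by rw [pow_add]; norm_num
    omega

end Pool.Agent.Results.MP_d3ab46_al.NotLogTwo
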